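import Pool.Agent.X282.BW.Final

/-!
MP_8c76c5_an, Q1: there is a transcendental entire function with an infinitely connected Baker
wandering domain `U` such that every critical point lies in some `U_k = f^k(U)`.
-/

set_option autoImplicit false

open Filter Topology Metric Set

namespace Pool.Agent.Results.MP_8c76c5_an.AllCriticalPoints

open Pool.Agent.H384R2.Fatou Pool.Agent.TH224.SC Pool.Agent.X282.BW

theorem result : ∃ (f : ℂ → ℂ) (U : Set ℂ), TransEntire f ∧
    (∀ k, ∃ z ∈ FatouSet f, f^[k] '' U = FatouComponent f z) ∧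
    (∀ j k, j ≠ k → Disjoint (f^[j] '' U) (f^[k] '' U)) ∧
    (∀ z ∈ U, Tendsto (fun n => ‖f^[n] z‖) atTop atTop) ∧
    (∀ k, Bornology.IsBounded (f^[k] '' U) ∧ SurroundsZero (f^[k] '' U)) ∧
    (SphereHoles U).Infinite ∧
    ∀ c : ℂ, deriv f c = 0 → ∃ k, c ∈ f^[k] '' U := by
  have h := sys
  refine ⟨fn, Sys.U fn ta 0, fn_trans, ?_, ?_, ?_, ?_, h.holes, ?_⟩
  · intro k
    rw [h.U_iter]
    exact ⟨_, h.pt_F k, rfl⟩
  · intro j k hjk
    rw [h.U_iter, h.U_iter]
    exact h.U_disj hjk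
  · intro z hz
    exact h.esc hz
  · intro k
    rw [h.U_iter]
    exact ⟨isBounded_ball.subset (h.U_bdd k), h.surrounds k⟩
  · intro c hc
    obtain ⟨n, hn⟩ := crit hc
    refine ⟨n, ?_⟩
    rw [h.U_iter]
    exact h.B_U n hn

end Pool.Agent.Results.MP_8c76c5_an.AllCriticalPoints
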